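import Pool.Agent.W998.KG.Stm3
import Pool.Agent.W191.KG.SWP

/-!
# Project KG, part TAS: Tashkinov's theorem
-/

set_option autoImplicit false

namespace Pool.Agent.W119.KG

open Pool.Agent.W998.KG
open Pool.Agent.Results.MP_633d19_co.SmallDegree
open Pool.Agent.Results.MP_633d19_co.SmallDegree.MGraph

variable {V E : Type}

/-- same `(a, b)`-component -/
def Cm (G : MGraph V E) {k : ℕ} (c : E → Option (Fin k)) (a b : Fin k) : V → V → Prop :=
  Relation.ReflTransGen
    (fun u w => ∃ e, u ∈ G.ends e ∧ w ∈ G.ends e ∧ (c e = some a ∨ c e = some b))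

lemma Cm.symm {G : MGraph V E} {k : ℕ} {c : E → Option (Fin k)} {a b : Fin k} {u w : V}
    (h : Cm G c a b u w) : Cm G c a b w u := by
  unfold Cm at *
  induction h with
  | refl => exact Relation.ReflTransGen.refl
  | tail _ h2 ih =>
    obtain ⟨e, h3, h4, h5⟩ := h2
    exact Relation.ReflTransGen.head ⟨e, h4, h3, h5⟩ ih

lemma Cm.comm {G : MGraph V E} {k : ℕ} {c : E → Option (Fin k)} {a b : Fin k} {u w : V}
    (h : Cm G c a b u w) : Cm G c b a u w := by
  unfold Cm at *
  induction h with
  | refl => exact Relation.ReflTransGen.refl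
  | tail _ h2 ih =>
    obtain ⟨e, h3, h4, h5⟩ := h2
    exact Relation.ReflTransGen.tail ih ⟨e, h3, h4, h5.symm⟩

lemma Cm.trans {G : MGraph V E} {k : ℕ} {c : E → Option (Fin k)} {a b : Fin k} {u v w : V}
    (h : Cm G c a b u v) (h' : Cm G c a b v w) : Cm G c a b u w :=
  Relation.ReflTransGen.trans h h'

lemma orb {G : MGraph V E} {k : ℕ} {c : E → Option (Fin k)} (hc : G.PP c) {a b : Fin k}
    {x w : V} (hx : G.Miss c x a) (h : Cm G c a b x w) :
    ∃ n : ℤ, w = ((G.iv hc a * G.iv hc b) ^ n) x := by
  have hs := G.iv_sq hc a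
  have ht := G.iv_sq hc b
  have hsx : G.iv hc a x = x := by rw [iv_apply]; exact G.nb_miss hx
  unfold Cm at h
  induction h with
  | refl => exact ⟨0, by simp⟩
  | @tail u w _ h2 ih =>
    obtain ⟨e, hu, hw, hcol⟩ := h2
    obtain ⟨n, hn⟩ := ih
    by_cases huw : w = u
    · exact ⟨n, by rw [huw, hn]⟩
    have hends : G.ends e = s(u, w) := by
      exact (Sym2.mem_and_mem_iff (Ne.symm huw)).mp ⟨hu, hw⟩
    rcases hcol with hcol | hcol
    · refine ⟨-n, ?_⟩
      rw [← dih_s _ _ hs ht x hsx, ← hn, iv_apply, G.nb_eq hc hcol hends]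
    · refine ⟨-n - 1, ?_⟩
      rw [← dih_t _ _ hs ht x hsx, ← hn, iv_apply, G.nb_eq hc hcol hends]

lemma three0 [Finite V] {G : MGraph V E} {k : ℕ} {c : E → Option (Fin k)} (hc : G.PP c)
    {a b : Fin k} {x u w : V} (hx : G.Miss c x a) (hu : G.Miss c u a ∨ G.Miss c u b)
    (hw : G.Miss c w a ∨ G.Miss c w b) (h1 : Cm G c a b x u) (h2 : Cm G c a b x w) :
    x = u ∨ x = w ∨ u = w := by
  obtain ⟨n, hn⟩ := orb hc hx h1
  obtain ⟨m, hm⟩ := orb hc hx h2
  refine three_fixed _ _ (G.iv_sq hc a) (G.iv_sq hc b) x u w
    (by rw [iv_apply]; exact G.nb_miss hx) n m hn hm ?_ ?_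
  · rcases hu with h | h
    · left; rw [iv_apply]; exact G.nb_miss h
    · right; rw [iv_apply]; exact G.nb_miss h
  · rcases hw with h | h
    · left; rw [iv_apply]; exact G.nb_miss h
    · right; rw [iv_apply]; exact G.nb_miss h

lemma three [Finite V] {G : MGraph V E} {k : ℕ} {c : E → Option (Fin k)} (hc : G.PP c)
    {a b : Fin k} {x u w : V} (hx : G.Miss c x a ∨ G.Miss c x b)
    (hu : G.Miss c u a ∨ G.Miss c u b)
    (hw : G.Miss c w a ∨ G.Miss c w b) (h1 : Cm G c a b x u) (h2 : Cm G c a b x w) :
    x = u ∨ x = w ∨ u = w := by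
  rcases hx with hx | hx
  · exact three0 hc hx hu hw h1 h2
  · exact three0 hc hx hu.symm hw.symm h1.comm h2.comm

lemma exch {G : MGraph V E} {k : ℕ} {c : E → Option (Fin k)} (hc : G.PP c) (a b : Fin k) (v : V) :
    ∃ c' : E → Option (Fin k), G.PP c' ∧ (∀ e, c' e = none ↔ c e = none) ∧
      (∀ e x, x ≠ a → x ≠ b → (c' e = some x ↔ c e = some x)) ∧
      (∀ w, Cm G c a b v w → ∀ x, G.Miss c w x → G.Miss c' w (Equiv.swap a b x)) ∧
      (∀ w, ¬ Cm G c a b v w → ∀ x, G.Miss c w x → G.Miss c' w x) ∧
      (∀ e u, u ∈ G.ends e → ¬ Cm G c a b v u → c' e = c e) := by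
  obtain ⟨c', g1, g2, g3, g4, g5, g6, g7⟩ := Pool.Agent.W191.KG.SWP.main G hc a b
    {w | Cm G c a b v w} (by
      intro e u w hu hw hcol hK
      exact Relation.ReflTransGen.tail hK ⟨e, hu, hw, hcol⟩)
  refine ⟨c', g1, g2, g3, g4, g5, ?_⟩
  intro e u hu hnu
  rcases hce : c e with _ | x
  · exact (g2 e).mpr hce
  · by_cases hx : x = a ∨ x = b
    · rw [g6 e, hce]
      intro w hw hCw
      apply hnu
      refine Relation.ReflTransGen.tail hCw ⟨e, hw, hu, ?_⟩
      rcases hx with rfl | rfl
      · exact Or.inl hce
      · exact Or.inr hce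
    · push Not at hx
      exact (g3 e x hx.1 hx.2).mpr hce

lemma trunc {G : MGraph V E} {k n n' : ℕ} {y : ℕ → V} {f : ℕ → E} {pr : ℕ → ℕ}
    {c : E → Option (Fin k)} (h : TT G n y f pr c) (hn : n' ≤ n) : TT G n' y f pr c where
  pp := h.pp
  inj := fun i hi j hj => h.inj i (hi.trans hn) j (hj.trans hn)
  le := fun i hi => h.le i (by omega)
  ed := fun i hi => h.ed i (by omega)
  none_iff := h.none_iff
  col := fun i hi => h.col i (by omega)

/-- a tree stays a tree under a Kempe exchange -/
lemma keep {G : MGraph V E} {k n : ℕ} {y : ℕ → V} {f : ℕ → E} {pr : ℕ → ℕ}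
    {c c' : E → Option (Fin k)} (h : TT G n y f pr c) (a b : Fin k) (g1 : G.PP c')
    (g2 : ∀ e, c' e = none ↔ c e = none)
    (g3 : ∀ e x, x ≠ a → x ≠ b → (c' e = some x ↔ c e = some x)) (m : ℕ)
    (H : ∀ t < n, 1 ≤ t → t < m → ∀ x, c (f t) = some x → ∀ s ≤ t, G.Miss c (y s) x →
      (x ≠ a ∧ x ≠ b) ∨ (c' (f t) = some x ∧ G.Miss c' (y s) x))
    (i1 i2 : ℕ) (h1 : m < n → i1 ≤ m) (h2 : m < n → i2 ≤ m) (h3 : m < n → G.Miss c' (y i1) a)
    (h4 : m < n → G.Miss c' (y i2) b) :
    TT G n y f pr c' := by
  refine ⟨g1, h.inj, h.le, h.ed, fun e => (g2 e).trans (h.none_iff e), ?_⟩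
  intro t ht ht1
  obtain ⟨x, hx, s, hs, hsx⟩ := h.col t ht ht1
  have unaff : (x ≠ a ∧ x ≠ b) → ∃ a, c' (f t) = some a ∧ ∃ j ≤ t, G.Miss c' (y j) a := by
    rintro ⟨k1, k2⟩
    refine ⟨x, (g3 _ x k1 k2).mpr hx, s, hs, ?_⟩
    intro e he h2
    exact hsx e he ((g3 _ x k1 k2).mp h2)
  rcases Nat.lt_or_ge t m with htm | htm
  · rcases H t ht ht1 htm x hx s hs hsx with h5 | ⟨h5, h6⟩
    · exact unaff h5
    · exact ⟨x, h5, s, hs, h6⟩
  · by_cases hxab : x ≠ a ∧ x ≠ b
    · exact unaff hxab
    · have hnn : c' (f t) ≠ none := by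
        rw [Ne, g2, hx]
        simp
      obtain ⟨z, hz⟩ := Option.ne_none_iff_exists'.mp hnn
      have hzab : z = a ∨ z = b := by
        by_contra hcon
        push Not at hcon
        have h2 := (g3 _ z hcon.1 hcon.2).mp hz
        rw [hx] at h2
        have h3 : x = z := Option.some.inj h2
        exact hxab (by rw [h3]; exact hcon)
      rcases hzab with rfl | rfl
      · exact ⟨z, hz, i1, (h1 (by omega)).trans htm, h3 (by omega)⟩
      · exact ⟨z, hz, i2, (h2 (by omega)).trans htm, h4 (by omega)⟩

/-- the claim for path number at most `p` and size `n` -/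
def HH (G : MGraph V E) (k p n : ℕ) : Prop :=
  ∀ (y : ℕ → V) (f : ℕ → E) (pr : ℕ → ℕ) (c : E → Option (Fin k)), TT G n y f pr c →
    (∀ i, p ≤ i → i < n → pr i = i) → ∀ i j, i < j → j ≤ n → ∀ a, G.Miss c (y i) a →
    G.Miss c (y j) a → False

lemma out {G : MGraph V E} {k p n : ℕ} (IH : ∀ n' < n, HH G k p n') {y : ℕ → V} {f : ℕ → E}
    {pr : ℕ → ℕ} {c : E → Option (Fin k)} (h : TT G n y f pr c)
    (hP : ∀ i, p ≤ i → i < n → pr i = i) :
    ∀ s t, s < t → t < n → ∀ x, G.Miss c (y s) x → G.Miss c (y t) x → False :=
  fun s t hst ht => IH t ht y f pr c (trunc h ht.le) (fun i h1 h2 => hP i h1 (by omega))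
    s t hst le_rfl

lemma claimA {G : MGraph V E} {k p n : ℕ} (IH : ∀ n' < n, HH G k p n') {y : ℕ → V} {f : ℕ → E}
    {pr : ℕ → ℕ} {c : E → Option (Fin k)} (h : TT G n y f pr c)
    (hP : ∀ i, p ≤ i → i < n → pr i = i) {i j : ℕ} (hij : i < j) (hj : j < n) {a b : Fin k}
    (ha : G.Miss c (y i) a) (hb : G.Miss c (y j) b)
    (hun : ∀ t, 1 ≤ t → t < j → c (f t) ≠ some a) : Cm G c a b (y j) (y i) := by
  have hout := out IH h hP
  by_contra hcon
  obtain ⟨c', g1, g2, g3, g4, g5, g6⟩ := exch h.pp a b (y j)
  have hT : TT G j y f pr c' := by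
    refine keep (trunc h hj.le) a b g1 g2 g3 j ?_ 0 0 (by omega) (by omega) (by omega) (by omega)
    intro t ht ht1 _ x hx s hs hsx
    left
    constructor
    · rintro rfl
      exact hun t ht1 ht hx
    · rintro rfl
      exact hout s j (by omega) hj x hsx hb
  have h1 := g4 (y j) Relation.ReflTransGen.refl b hb
  rw [Equiv.swap_apply_right] at h1
  exact IH j hj y f pr c' hT (fun i h1 h2 => hP i h1 (by omega)) i j hij le_rfl a
    (g5 (y i) hcon a ha) h1


/-- colouring an edge both ends of which miss the colour -/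
lemma pp_update [DecidableEq E] {G : MGraph V E} {k : ℕ} {c : E → Option (Fin k)}
    (hc : G.PP c) (e0 : E) (u w : V) (he : G.ends e0 = s(u, w)) (a : Fin k)
    (hu : G.Miss c u a) (hw : G.Miss c w a) : G.PP (Function.update c e0 (some a)) := by
  have key : ∀ f v, v ∈ G.ends e0 → v ∈ G.ends f → f ≠ e0 → c f ≠ some a := by
    intro f v hv hvf _
    rw [he, Sym2.mem_iff] at hv
    rcases hv with rfl | rfl
    · exact hu f hvf
    · exact hw f hvf
  intro e f v x hev hfv h1 h2
  by_cases h3 : e = e0
  · by_cases h4 : f = e0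
    · rw [h3, h4]
    · exfalso
      rw [h3, Function.update_self] at h1
      rw [Function.update_of_ne h4, ← h1] at h2
      rw [h3] at hev
      exact key f v hev hfv h4 h2
  · by_cases h4 : f = e0
    · exfalso
      rw [h4, Function.update_self] at h2
      rw [Function.update_of_ne h3, ← h2] at h1
      rw [h4] at hfv
      exact key e v hfv hev h3 h1
    · rw [Function.update_of_ne h3] at h1
      rw [Function.update_of_ne h4] at h2
      exact hc e f v x hev hfv h1 h2

/-- case (1a) -/
lemma case1a [Finite V] [Finite E] {G : MGraph V E} {k Δ p n : ℕ} (hG : ¬ G.Colorable k)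
    (hdeg : ∀ u, G.degree u ≤ Δ) (hk : Δ + 1 ≤ k) (IH : ∀ n' < n, HH G k p n') :
    ∀ d, 1 ≤ d → ∀ (y : ℕ → V) (f : ℕ → E) (pr : ℕ → ℕ) (c : E → Option (Fin k)),
      TT G n y f pr c → (∀ i, p ≤ i → i < n → pr i = i) → ∀ i, i + d = n → p ≤ i → ∀ a,
      G.Miss c (y i) a → G.Miss c (y n) a → False := by
  classical
  intro d hd
  induction d, hd using Nat.le_induction with
  | base =>
    intro y f pr c h hP i hir hpi a hi ha
    have hpri : pr i = i := hP i hpi (by omega)
    have he := h.ed i (by omega)
    rw [hpri] at he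
    have hir' : i + 1 = n := hir
    have hpp := pp_update h.pp (f i) (y i) (y (i + 1)) he a hi (by rw [hir']; exact ha)
    rcases Nat.eq_zero_or_pos i with hi0 | hi0
    · -- the uncoloured edge can be coloured
      subst hi0
      refine hG (G.colorable_of_total (Function.update c (f 0) (some a)) hpp ?_)
      intro e
      by_cases h1 : e = f 0
      · rw [h1, Function.update_self]
        simp
      · rw [Function.update_of_ne h1, Ne, h.none_iff]
        exact h1
    · -- shift
      obtain ⟨b, hb, j, hj, hjb⟩ := h.col i (by omega) hi0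
      have hji : j < i := by
        rcases Nat.lt_or_ge j i with h1 | h1
        · exact h1
        · exfalso
          have : j = i := by omega
          subst this
          exact hjb (f j) (by rw [he]; simp) hb
      have hoff : ∀ j < i, y j ∉ G.ends (f i) := by
        intro j hj hmem
        rw [he, Sym2.mem_iff] at hmem
        rcases hmem with h1 | h1
        · have := h.inj j (by omega) i (by omega) h1
          omega
        · have := h.inj j (by omega) (i + 1) (by omega) h1
          omega
      have hmiss : ∀ j < i, ∀ x, G.Miss c (y j) x →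
          G.Miss (Function.update c (f i) (some a)) (y j) x := by
        intro j hj x hx e he'
        have h1 : e ≠ f i := by
          rintro rfl
          exact hoff j hj he'
        rw [Function.update_of_ne h1]
        exact hx e he'
      have hfne : ∀ t < i, f t ≠ f i := by
        intro t ht h1
        have hle := h.le t (by omega)
        apply hoff (pr t) (by omega)
        rw [← h1, h.ed t (by omega)]
        simp
      have hTT : TT G i y f pr (Function.update c (f i) (some a)) := by
        refine ⟨hpp, fun s hs t ht => h.inj s (by omega) t (by omega),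
          fun t ht => h.le t (by omega), fun t ht => h.ed t (by omega), ?_, ?_⟩
        · intro e
          by_cases h1 : e = f i
          · rw [h1, Function.update_self]
            constructor
            · intro h2
              simp at h2
            · intro h2
              exact absurd h2.symm (hfne 0 hi0)
          · rw [Function.update_of_ne h1]
            exact h.none_iff e
        · intro t ht ht1
          obtain ⟨x, hx, s, hs, hsx⟩ := h.col t (by omega) ht1
          refine ⟨x, ?_, s, hs, hmiss s (by omega) x hsx⟩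
          rw [Function.update_of_ne (hfne t ht)]
          exact hx
      refine IH i (by omega) y f pr _ hTT (fun t h1 h2 => hP t h1 (by omega)) j i hji le_rfl b
        (hmiss j hji b hjb) ?_
      intro e he' h1
      have hyi : y i ∈ G.ends (f i) := by
        rw [he]
        simp
      by_cases h2 : e = f i
      · rw [h2, Function.update_self] at h1
        have hab : a = b := Option.some.inj h1
        exact hi (f i) hyi (by rw [hb, hab])
      · rw [Function.update_of_ne h2] at h1
        exact h2 (h.pp e (f i) (y i) b he' hyi h1 hb)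
  | succ d hd ihd =>
    intro y f pr c h hP i hir hpi a hi ha
    obtain ⟨b, hb⟩ := G.exists_miss c (y (i + 1)) (hdeg _) hk
    have hout := out IH h hP
    have hun : ∀ t, 1 ≤ t → t < i + 1 → c (f t) ≠ some a := by
      intro t ht1 hti hx
      obtain ⟨x, hx', s, hs, hsx⟩ := h.col t (by omega) ht1
      rw [hx] at hx'
      have hax : a = x := Option.some.inj hx'
      subst hax
      rcases Nat.lt_or_ge s i with h1 | h1
      · exact hout s i h1 (by omega) a hsx hi
      · have h2 : s = i := by omega
        have h3 : t = i := by omega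
        rw [h2] at hsx
        rw [h3] at hx
        refine hsx (f i) ?_ hx
        rw [h.ed i (by omega), hP i hpi (by omega)]
        simp
    have hC := claimA IH h hP (Nat.lt_succ_self i) (by omega : i + 1 < n) hi hb hun
    have hni : ∀ w, (w = y i ∨ w = y (i + 1)) → ¬ Cm G c a b (y n) w := by
      intro w hw hCw
      have h1 : Cm G c a b (y n) (y i) ∧ Cm G c a b (y n) (y (i + 1)) := by
        rcases hw with rfl | rfl
        · exact ⟨hCw, hCw.trans hC.symm⟩
        · exact ⟨hCw.trans hC, hCw⟩
      rcases three h.pp (Or.inl ha) (Or.inl hi) (Or.inr hb) h1.1 h1.2 with h2 | h2 | h2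
      · have := h.inj n le_rfl i (by omega) h2
        omega
      · have := h.inj n le_rfl (i + 1) (by omega) h2
        omega
      · have := h.inj i (by omega) (i + 1) (by omega) h2
        omega
    obtain ⟨c', g1, g2, g3, g4, g5, g6⟩ := exch h.pp a b (y n)
    have ma : G.Miss c' (y i) a := g5 _ (hni _ (Or.inl rfl)) a hi
    have mb : G.Miss c' (y (i + 1)) b := g5 _ (hni _ (Or.inr rfl)) b hb
    have hTT : TT G n y f pr c' := by
      refine keep h a b g1 g2 g3 (i + 1) ?_ i (i + 1) (by omega) (by omega) (fun _ => ma)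
        (fun _ => mb)
      intro t ht ht1 hti x hx s hs hsx
      left
      constructor
      · rintro rfl
        exact hun t ht1 hti hx
      · rintro rfl
        exact hout s (i + 1) (by omega) (by omega) x hsx hb
    have h1 := g4 (y n) Relation.ReflTransGen.refl a ha
    rw [Equiv.swap_apply_left] at h1
    exact ihd y f pr c' hTT hP (i + 1) (by omega) (by omega) b mb h1

/-- deleting the last but one vertex -/
lemma delc {G : MGraph V E} {k q : ℕ} (H1 : HH G k (q + 2) (q + 2)) {y : ℕ → V} {f : ℕ → E}
    {pr : ℕ → ℕ} {c : E → Option (Fin k)} (h : TT G (q + 3) y f pr c)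
    (hpr : pr (q + 2) ≤ q + 1) {x : Fin k} (hx : c (f (q + 2)) = some x) {s : ℕ}
    (hs : s ≤ q + 1) (hsx : G.Miss c (y s) x) {i : ℕ} (hi : i ≤ q + 1) {a : Fin k}
    (hia : G.Miss c (y i) a) (hna : G.Miss c (y (q + 3)) a) : False := by
  have hTT : TT G (q + 2) (fun t => if t = q + 2 then y (q + 3) else y t)
      (fun t => if t = q + 1 then f (q + 2) else f t)
      (fun t => if t = q + 1 then pr (q + 2) else pr t) c := by
    refine ⟨h.pp, ?_, ?_, ?_, ?_, ?_⟩
    · intro i hi j hj hij
      split_ifs at hij with h1 h2 h2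
      · omega
      · have := h.inj _ le_rfl j (by omega) hij
        omega
      · have := h.inj i (by omega) _ le_rfl hij
        omega
      · exact h.inj i (by omega) j (by omega) hij
    · intro i hi
      split_ifs with h1
      · omega
      · exact h.le i (by omega)
    · intro i hi
      by_cases h1 : i = q + 1
      · subst h1
        rw [if_pos rfl, if_pos rfl, if_neg (by omega), if_pos rfl]
        exact h.ed (q + 2) (by omega)
      · have h2 := h.le i (by omega)
        rw [if_neg h1, if_neg h1, if_neg (by omega), if_neg (by omega)]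
        exact h.ed i (by omega)
    · intro e
      rw [if_neg (by omega)]
      exact h.none_iff e
    · intro i hi h1
      by_cases h2 : i = q + 1
      · subst h2
        rw [if_pos rfl]
        refine ⟨x, hx, s, hs, ?_⟩
        rw [if_neg (by omega)]
        exact hsx
      · rw [if_neg h2]
        obtain ⟨x, hx, s, hs, hsx⟩ := h.col i (by omega) h1
        refine ⟨x, hx, s, hs, ?_⟩
        rw [if_neg (by omega)]
        exact hsx
  refine H1 _ _ _ c hTT (by intro t h1 h2; omega) i (q + 2) (by omega) le_rfl a ?_ ?_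
  · rw [if_neg (by omega)]
    exact hia
  · rw [if_pos rfl]
    exact hna

/-- a free colour -/
lemma free [Finite E] {G : MGraph V E} {k Δ m n : ℕ}
    (hdeg : ∀ u, G.degree u ≤ Δ) (hk : Δ + 1 ≤ k) {y : ℕ → V} {f : ℕ → E}
    {pr : ℕ → ℕ} {c : E → Option (Fin k)} (h : TT G n y f pr c) (hmn : m < n)
    (hel : ∀ s t, s < t → t ≤ m → ∀ x, G.Miss c (y s) x → G.Miss c (y t) x → False) :
    ∃ i ≤ m, ∃ x, G.Miss c (y i) x ∧ ∀ t, 1 ≤ t → t ≤ m + 1 → c (f t) ≠ some x := by
  classical
  have h0 : ∀ t, ∃ x, G.Miss c (y t) x := fun t => G.exists_miss c (y t) (hdeg _) hk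
  choose φ hφ using h0
  obtain ⟨x1, hx1⟩ := G.exists_miss (Function.update c (f 0) (some (φ 0))) (y 0) (hdeg _) hk
  have hy0 : y 0 ∈ G.ends (f 0) := by
    have h1 := h.le 0 (by omega)
    have h2 : pr 0 = 0 := by omega
    rw [h.ed 0 (by omega), h2]
    simp
  have hne : x1 ≠ φ 0 := by
    rintro rfl
    exact hx1 (f 0) hy0 (by rw [Function.update_self])
  have hx1' : G.Miss c (y 0) x1 := by
    intro e he hce
    by_cases h1 : e = f 0
    · rw [(h.none_iff e).mpr h1] at hce
      simp at hce
    · exact hx1 e he (by rw [Function.update_of_ne h1]; exact hce)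
  let ψ : ℕ → Fin k := fun t => if t = m + 1 then x1 else φ t
  let ι : ℕ → ℕ := fun t => if t = m + 1 then 0 else t
  have hψ : ∀ t ≤ m + 1, G.Miss c (y (ι t)) (ψ t) := by
    intro t ht
    by_cases h1 : t = m + 1
    · simp only [ι, ψ, if_pos h1]
      exact hx1'
    · simp only [ι, ψ, if_neg h1]
      exact hφ t
  have hι : ∀ t ≤ m + 1, ι t ≤ m := by
    intro t ht
    by_cases h1 : t = m + 1
    · simp only [ι, if_pos h1]
      omega
    · simp only [ι, if_neg h1]
      omega
  have hinj : ∀ s ≤ m + 1, ∀ t ≤ m + 1, s < t → ψ s ≠ ψ t := by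
    intro s hs t ht hst heq
    have h1 : s ≠ m + 1 := by omega
    by_cases h2 : t = m + 1
    · by_cases h3 : s = 0
      · simp only [ψ, if_pos h2, h3] at heq
        exact hne heq.symm
      · have h4 := hψ s hs
        have h5 := hψ t ht
        rw [← heq] at h5
        simp only [ι, if_neg h1] at h4
        simp only [ι, if_pos h2] at h5
        exact hel 0 s (by omega) (by omega) _ h5 h4
    · have h4 := hψ s hs
      have h5 := hψ t ht
      rw [← heq] at h5
      simp only [ι, if_neg h1] at h4
      simp only [ι, if_neg h2] at h5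
      exact hel s t hst (by omega) _ h4 h5
  by_contra hcon
  push Not at hcon
  have hsub : ((Finset.range (m + 2)).image (fun t => some (ψ t))) ⊆
      ((Finset.range (m + 1)).image (fun t => c (f (t + 1)))) := by
    intro o ho
    rw [Finset.mem_image] at ho
    obtain ⟨t, ht, rfl⟩ := ho
    rw [Finset.mem_range] at ht
    obtain ⟨s, hs1, hs2, hs3⟩ := hcon (ι t) (hι t (by omega)) (ψ t) (hψ t (by omega))
    rw [Finset.mem_image]
    refine ⟨s - 1, by rw [Finset.mem_range]; omega, ?_⟩
    rw [Nat.sub_add_cancel hs1]
    exact hs3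
  have h1 := Finset.card_le_card hsub
  rw [Finset.card_image_of_injOn] at h1
  · have h2 := Finset.card_image_le (s := Finset.range (m + 1)) (f := fun t => c (f (t + 1)))
    rw [Finset.card_range] at h1 h2
    omega
  · intro s hs t ht hst
    simp only [Finset.coe_range, Set.mem_Iio] at hs ht
    have h3 : ψ s = ψ t := Option.some.inj hst
    rcases lt_trichotomy s t with h4 | h4 | h4
    · exact absurd h3 (hinj s (by omega) t (by omega) h4)
    · exact h4
    · exact absurd h3.symm (hinj t (by omega) s (by omega) h4)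


lemma walk {G : MGraph V E} {k : ℕ} {c : E → Option (Fin k)} {a b : Fin k} {u w : V}
    (h : Cm G c a b u w) : ∃ (m : ℕ) (z : ℕ → V), z 0 = u ∧ z m = w ∧
      ∀ s < m, ∃ e, G.ends e = s(z s, z (s + 1)) ∧ (c e = some a ∨ c e = some b) := by
  unfold Cm at h
  induction h with
  | refl => exact ⟨0, fun _ => u, rfl, rfl, by intro s hs; omega⟩
  | @tail v w _ h2 ih =>
    obtain ⟨e, hv, hw, hcol⟩ := h2
    obtain ⟨m, z, h3, h4, h5⟩ := ih
    by_cases hvw : v = w
    · subst hvw
      exact ⟨m, z, h3, h4, h5⟩
    have hends : G.ends e = s(v, w) := (Sym2.mem_and_mem_iff hvw).mp ⟨hv, hw⟩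
    refine ⟨m + 1, fun t => if t ≤ m then z t else w, ?_, ?_, ?_⟩
    · dsimp only
      rw [if_pos (Nat.zero_le _)]
      exact h3
    · dsimp only
      rw [if_neg (by omega)]
    · intro s hs
      dsimp only
      rcases Nat.lt_or_ge s m with h6 | h6
      · rw [if_pos h6.le, if_pos (by omega)]
        exact h5 s h6
      · have h7 : s = m := by omega
        subst h7
        rw [if_pos le_rfl, if_neg (by omega), h4]
        exact ⟨e, hends, hcol⟩

lemma pathc {G : MGraph V E} {k q n : ℕ} (hq : 1 ≤ q) (H1 : ∀ n', HH G k (q + 1) n')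
    {y : ℕ → V} {f : ℕ → E} {pr : ℕ → ℕ} {c : E → Option (Fin k)} (h : TT G n y f pr c)
    (hqn : q < n) {a b : Fin k} {i j : ℕ} (hi : i ≤ q) (hj : j ≤ q) (hia : G.Miss c (y i) a)
    (hjb : G.Miss c (y j) b) (hna : G.Miss c (y n) a) {l : ℕ} (hl : l ≤ q) :
    ¬ Cm G c a b (y n) (y l) := by
  classical
  intro hC
  have hW : ∃ m, ∃ z : ℕ → V, z 0 = y n ∧ (∃ l ≤ q, z m = y l) ∧
      ∀ s < m, ∃ e, G.ends e = s(z s, z (s + 1)) ∧ (c e = some a ∨ c e = some b) := by
    obtain ⟨m, z, h1, h2, h3⟩ := walk hC
    exact ⟨m, z, h1, ⟨l, hl, h2⟩, h3⟩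
  obtain ⟨m, hm⟩ : ∃ m, m = Nat.find hW := ⟨_, rfl⟩
  have hmin : ∀ m' < m, ¬ ∃ z : ℕ → V, z 0 = y n ∧ (∃ l ≤ q, z m' = y l) ∧
      ∀ s < m', ∃ e, G.ends e = s(z s, z (s + 1)) ∧ (c e = some a ∨ c e = some b) := by
    intro m' hm'
    rw [hm] at hm'
    exact Nat.find_min hW hm'
  obtain ⟨z, hz0, ⟨l', hl', hzl⟩, hz⟩ := Nat.find_spec hW
  rw [← hm] at hzl hz
  have hnot : ∀ s < m, ∀ t ≤ q, z s ≠ y t := by
    intro s hs t ht hst
    exact hmin s hs ⟨z, hz0, ⟨t, ht, hst⟩, fun u hu => hz u (by omega)⟩
  have hdist : ∀ s t, s < t → t ≤ m → z s ≠ z t := by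
    intro s t hst htm heq
    refine hmin (m - (t - s)) (by omega)
      ⟨fun u => if u ≤ s then z u else z (u + (t - s)), ?_, ?_, ?_⟩
    · dsimp only
      rw [if_pos (Nat.zero_le _)]
      exact hz0
    · dsimp only
      by_cases h1 : m - (t - s) ≤ s
      · have h2 : m = t := by omega
        have h3 : m - (t - s) = s := by omega
        rw [if_pos h1, h3, heq, ← h2]
        exact ⟨l', hl', hzl⟩
      · rw [if_neg h1]
        have h2 : m - (t - s) + (t - s) = m := by omega
        rw [h2]
        exact ⟨l', hl', hzl⟩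
    · intro u hu
      dsimp only
      rcases lt_trichotomy u s with h1 | h1 | h1
      · rw [if_pos h1.le, if_pos (by omega)]
        exact hz u (by omega)
      · subst h1
        rw [if_pos le_rfl, if_neg (by omega), heq]
        have h2 : u + 1 + (t - u) = t + 1 := by omega
        rw [h2]
        exact hz t (by omega)
      · rw [if_neg (by omega), if_neg (by omega)]
        have h2 : u + 1 + (t - s) = u + (t - s) + 1 := by omega
        rw [h2]
        exact hz (u + (t - s)) (by omega)
  have hm1 : 1 ≤ m := by
    by_contra hcon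
    have h0 : m = 0 := by omega
    rw [h0, hz0] at hzl
    have := h.inj n le_rfl l' (by omega) hzl
    omega
  have : Nonempty E := ⟨f 0⟩
  choose! g hg using hz
  have hTT : TT G (q + m) (fun t => if t ≤ q then y t else z (q + m - t))
      (fun t => if t < q then f t else g (q + m - 1 - t))
      (fun t => if t < q then pr t else if t = q then l' else t) c := by
    refine ⟨h.pp, ?_, ?_, ?_, ?_, ?_⟩
    · intro s hs t ht hst
      by_cases h1 : s ≤ q
      · by_cases h2 : t ≤ q
        · rw [if_pos h1, if_pos h2] at hst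
          exact h.inj s (by omega) t (by omega) hst
        · rw [if_pos h1, if_neg h2] at hst
          exact absurd hst.symm (hnot _ (by omega) s h1)
      · by_cases h2 : t ≤ q
        · rw [if_neg h1, if_pos h2] at hst
          exact absurd hst (hnot _ (by omega) t h2)
        · rw [if_neg h1, if_neg h2] at hst
          rcases lt_trichotomy s t with h3 | h3 | h3
          · exact absurd hst.symm (hdist _ _ (by omega) (by omega))
          · exact h3
          · exact absurd hst (hdist _ _ (by omega) (by omega))
    · intro t ht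
      split_ifs with h1 h2
      · exact h.le t (by omega)
      · omega
      · exact le_rfl
    · intro t ht
      by_cases h1 : t < q
      · have h2 := h.le t (by omega)
        rw [if_pos h1, if_pos h1, if_pos (by omega), if_pos (by omega)]
        exact h.ed t (by omega)
      · rw [if_neg h1, if_neg h1]
        have h3 : q + m - 1 - t + 1 = q + m - t := by omega
        have h4 := (hg (q + m - 1 - t) (by omega)).1
        rw [h3] at h4
        rw [h4, if_neg (by omega : ¬ t + 1 ≤ q)]
        have h5 : q + m - (t + 1) = q + m - 1 - t := by omega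
        rw [h5]
        by_cases h2 : t = q
        · rw [if_pos h2, if_pos hl']
          have h6 : q + m - t = m := by omega
          rw [h6, hzl, Sym2.eq_swap]
        · rw [if_neg h2, if_neg (by omega), Sym2.eq_swap]
    · intro e
      rw [if_pos (by omega : 0 < q)]
      exact h.none_iff e
    · intro t ht ht1
      by_cases h1 : t < q
      · obtain ⟨x, hx, s, hs, hsx⟩ := h.col t (by omega) ht1
        refine ⟨x, by rw [if_pos h1]; exact hx, s, hs, ?_⟩
        rw [if_pos (by omega)]
        exact hsx
      · have h2 := (hg (q + m - 1 - t) (by omega)).2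
        rcases h2 with h2 | h2
        · refine ⟨a, by rw [if_neg h1]; exact h2, i, by omega, ?_⟩
          rw [if_pos hi]
          exact hia
        · refine ⟨b, by rw [if_neg h1]; exact h2, j, by omega, ?_⟩
          rw [if_pos hj]
          exact hjb
  refine H1 (q + m) _ _ _ c hTT ?_ i (q + m) (by omega) le_rfl a ?_ ?_
  · intro t h1 h2
    rw [if_neg (by omega), if_neg (by omega)]
  · rw [if_pos hi]
    exact hia
  · rw [if_neg (by omega)]
    have h1 : q + m - (q + m) = 0 := by omega
    rw [h1, hz0]
    exact hna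

lemma case1b [Finite V] {G : MGraph V E} {k q n : ℕ} (IH : ∀ n' < n, HH G k (q + 2) n')
    {y : ℕ → V} {f : ℕ → E} {pr : ℕ → ℕ} {c : E → Option (Fin k)} (h : TT G n y f pr c)
    (hP : ∀ i, q + 2 ≤ i → i < n → pr i = i) (hqn : q + 1 < n) {a α : Fin k} {i0 : ℕ}
    (ha : G.Miss c (y (q + 1)) a) (hna : G.Miss c (y n) a) (hi0 : i0 ≤ q)
    (hα : G.Miss c (y i0) α) (hfree : ∀ t, 1 ≤ t → t ≤ q + 1 → c (f t) ≠ some α) :
    ∃ c' : E → Option (Fin k), TT G n y f pr c' ∧ G.Miss c' (y i0) a ∧ G.Miss c' (y n) a ∧
      (∀ e x, x ≠ α → x ≠ a → (c' e = some x ↔ c e = some x)) := by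
  have hout := out IH h hP
  have hC := claimA IH h hP (by omega : i0 < q + 1) hqn hα ha
    (fun t h1 h2 => hfree t h1 (by omega))
  have hn : ¬ Cm G c α a (y (q + 1)) (y n) := by
    intro hCn
    rcases three h.pp (Or.inr ha) (Or.inl hα) (Or.inr hna) hC hCn with h2 | h2 | h2
    · have := h.inj (q + 1) (by omega) i0 (by omega) h2
      omega
    · have := h.inj (q + 1) (by omega) n (by omega) h2
      omega
    · have := h.inj i0 (by omega) n (by omega) h2
      omega
  obtain ⟨c', g1, g2, g3, g4, g5, g6⟩ := exch h.pp α a (y (q + 1))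
  have m1 := g4 (y (q + 1)) Relation.ReflTransGen.refl a ha
  rw [Equiv.swap_apply_right] at m1
  have m2 := g4 (y i0) hC α hα
  rw [Equiv.swap_apply_left] at m2
  refine ⟨c', ?_, m2, g5 _ hn a hna, g3⟩
  refine keep h α a g1 g2 g3 (q + 1) ?_ (q + 1) i0 (by omega) (by omega) (fun _ => m1)
    (fun _ => m2)
  intro t ht ht1 htm x hx s hs hsx
  left
  constructor
  · rintro rfl
    exact hfree t ht1 (by omega) hx
  · rintro rfl
    exact hout s (q + 1) (by omega) hqn x hsx ha


lemma fin [Finite V] [Finite E] {G : MGraph V E} {k Δ r n : ℕ} (hG : ¬ G.Colorable k)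
    (hdeg : ∀ u, G.degree u ≤ Δ) (hk : Δ + 1 ≤ k) (IHp : HH G k (r + 2) (r + 2))
    (IH : ∀ n' < n, HH G k (r + 3) n')
    {y : ℕ → V} {f : ℕ → E} {pr : ℕ → ℕ} {c : E → Option (Fin k)} (h : TT G n y f pr c)
    (hP : ∀ i, r + 3 ≤ i → i < n → pr i = i) (hn : r + 3 ≤ n) (hpr : pr (r + 2) ≤ r + 1)
    {i : ℕ} (hi : i ≤ r + 1) {a : Fin k} (hia : G.Miss c (y i) a) (hna : G.Miss c (y n) a)
    (hun : ∀ t, 1 ≤ t → t ≤ r + 2 → c (f t) ≠ some a) : False := by
  have hout := out IH h hP
  rcases Nat.lt_or_ge (r + 3) n with hlt | hge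
  · obtain ⟨b, hb⟩ := G.exists_miss c (y (r + 3)) (hdeg _) hk
    have hC := claimA IH h hP (by omega : i < r + 3) hlt hia hb
      (fun t h1 h2 => hun t h1 (by omega))
    have hni : ∀ w, (w = y i ∨ w = y (r + 3)) → ¬ Cm G c a b (y n) w := by
      intro w hw hCw
      have h1 : Cm G c a b (y n) (y i) ∧ Cm G c a b (y n) (y (r + 3)) := by
        rcases hw with rfl | rfl
        · exact ⟨hCw, hCw.trans hC.symm⟩
        · exact ⟨hCw.trans hC, hCw⟩
      rcases three h.pp (Or.inl hna) (Or.inl hia) (Or.inr hb) h1.1 h1.2 with h2 | h2 | h2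
      · have := h.inj n le_rfl i (by omega) h2
        omega
      · have := h.inj n le_rfl (r + 3) (by omega) h2
        omega
      · have := h.inj i (by omega) (r + 3) (by omega) h2
        omega
    obtain ⟨c', g1, g2, g3, g4, g5, g6⟩ := exch h.pp a b (y n)
    have ma : G.Miss c' (y i) a := g5 _ (hni _ (Or.inl rfl)) a hia
    have mb : G.Miss c' (y (r + 3)) b := g5 _ (hni _ (Or.inr rfl)) b hb
    have hTT : TT G n y f pr c' := by
      refine keep h a b g1 g2 g3 (r + 3) ?_ i (r + 3) (by omega) (by omega) (fun _ => ma)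
        (fun _ => mb)
      intro t ht ht1 hti x hx s hs hsx
      left
      constructor
      · rintro rfl
        exact hun t ht1 (by omega) hx
      · rintro rfl
        exact hout s (r + 3) (by omega) hlt x hsx hb
    have h1 := g4 (y n) Relation.ReflTransGen.refl a hna
    rw [Equiv.swap_apply_left] at h1
    exact case1a hG hdeg hk IH (n - (r + 3)) (by omega) y f pr c' hTT hP (r + 3) (by omega)
      le_rfl b mb h1
  · have hnr : n = r + 3 := by omega
    subst hnr
    obtain ⟨x, hx, s, hs, hsx⟩ := h.col (r + 2) (by omega) (by omega)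
    rcases Nat.lt_or_ge s (r + 2) with hs' | hs'
    · exact delc IHp h hpr hx (by omega) hsx hi hia hna
    · have hsr : s = r + 2 := by omega
      rw [hsr] at hsx
      have hC := claimA IH h hP (by omega : i < r + 2) (by omega : r + 2 < r + 3) hia hsx
        (fun t h1 h2 => hun t h1 (by omega))
      have hnc : ¬ Cm G c a x (y (r + 2)) (y (r + 3)) := by
        intro hCn
        rcases three h.pp (Or.inr hsx) (Or.inl hia) (Or.inl hna) hC hCn with h2 | h2 | h2
        · have := h.inj (r + 2) (by omega) i (by omega) h2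
          omega
        · have := h.inj (r + 2) (by omega) (r + 3) (by omega) h2
          omega
        · have := h.inj i (by omega) (r + 3) (by omega) h2
          omega
      obtain ⟨c', g1, g2, g3, g4, g5, g6⟩ := exch h.pp a x (y (r + 2))
      have m1 := g4 (y (r + 2)) Relation.ReflTransGen.refl x hsx
      rw [Equiv.swap_apply_right] at m1
      have m2 := g4 (y i) hC a hia
      rw [Equiv.swap_apply_left] at m2
      have m3 := g5 (y (r + 3)) hnc a hna
      have hmem : y (r + 3) ∈ G.ends (f (r + 2)) := by
        rw [h.ed (r + 2) (by omega)]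
        simp
      have hcf : c' (f (r + 2)) = some x := by
        rw [g6 (f (r + 2)) (y (r + 3)) hmem hnc]
        exact hx
      have hT : TT G (r + 3) y f pr c' := by
        refine keep h a x g1 g2 g3 (r + 2) ?_ (r + 2) i (by omega) (by omega) (fun _ => m1)
          (fun _ => m2)
        intro t ht ht1 hti z hz s' hs' hsz
        left
        constructor
        · rintro rfl
          exact hun t ht1 (by omega) hz
        · rintro rfl
          exact hout s' (r + 2) (by omega) (by omega) z hsz hsx
      obtain ⟨i0, hi0, α, hα, hfree⟩ := free hdeg hk hT (by omega : r + 1 < r + 3)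
        (fun s t h1 h2 => out IH hT hP s t h1 (by omega))
      obtain ⟨c'', hT'', n1, n2, n3⟩ := case1b (q := r + 1) IH hT hP (by omega) m1 m3 hi0 hα
        hfree
      have hxα : x ≠ α := by
        rintro rfl
        exact hfree (r + 2) (by omega) (by omega) hcf
      have hxa : x ≠ a := by
        rintro rfl
        exact m3 (f (r + 2)) hmem hcf
      refine delc IHp hT'' hpr ((n3 _ x hxα hxa).mpr hcf) hi ?_ hi0 n1 n2
      intro e he hce
      exact m2 e he ((n3 _ x hxα hxa).mp hce)

lemma stc [Finite V] [Finite E] {G : MGraph V E} {k Δ r n : ℕ} (hG : ¬ G.Colorable k)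
    (hdeg : ∀ u, G.degree u ≤ Δ) (hk : Δ + 1 ≤ k) (IHp : ∀ n', HH G k (r + 2) n')
    (IH : ∀ n' < n, HH G k (r + 3) n')
    {y : ℕ → V} {f : ℕ → E} {pr : ℕ → ℕ} {c : E → Option (Fin k)} (h : TT G n y f pr c)
    (hP : ∀ i, r + 3 ≤ i → i < n → pr i = i) (hn : r + 3 ≤ n) (hpr : pr (r + 2) ≤ r + 1)
    {i : ℕ} (hi : i ≤ r + 1) {a : Fin k} (hia : G.Miss c (y i) a) (hna : G.Miss c (y n) a) :
    False := by
  have hout := out IH h hP
  by_cases hun : ∀ t, 1 ≤ t → t ≤ r + 2 → c (f t) ≠ some a
  · exact fin hG hdeg hk (IHp _) IH h hP hn hpr hi hia hna hun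
  · obtain ⟨i0, hi0, α, hα, hfree⟩ := free hdeg hk h (by omega : r + 1 < n)
      (fun s t h1 h2 => hout s t h1 (by omega))
    have hC : ∀ l ≤ r + 1, ¬ Cm G c a α (y n) (y l) := fun l hl =>
      pathc (q := r + 1) (by omega) IHp h (by omega) hi hi0 hia hα hna hl
    obtain ⟨c', g1, g2, g3, g4, g5, g6⟩ := exch h.pp a α (y n)
    have hsame : ∀ t ≤ r + 2, c' (f t) = c (f t) := by
      intro t ht
      refine g6 (f t) (y (pr t)) ?_ (hC (pr t) ?_)
      · rw [h.ed t (by omega)]
        simp
      · rcases Nat.lt_or_ge t (r + 2) with h1 | h1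
        · have := h.le t (by omega)
          omega
        · have h2 : t = r + 2 := by omega
          rw [h2]
          exact hpr
    have ma := g5 (y i) (hC i hi) a hia
    have mα := g5 (y i0) (hC i0 hi0) α hα
    have hT : TT G n y f pr c' := by
      refine keep h a α g1 g2 g3 (r + 2) ?_ i i0 (by omega) (by omega) (fun _ => ma)
        (fun _ => mα)
      intro t ht ht1 hti z hz s hs hsz
      right
      exact ⟨by rw [hsame t (by omega)]; exact hz, g5 (y s) (hC s (by omega)) z hsz⟩
    have mn := g4 (y n) Relation.ReflTransGen.refl a hna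
    rw [Equiv.swap_apply_left] at mn
    refine fin hG hdeg hk (IHp _) IH hT hP hn hpr hi0 mα mn ?_
    intro t h1 h2
    rw [hsame t h2]
    exact hfree t h1 h2

theorem main : PartTAS := by
  classical
  intro V E _ _ G k Δ hG hdeg hk
  have key : ∀ p n, HH G k p n := by
    intro p
    induction p using Nat.strong_induction_on with
    | _ p IHp =>
    intro n
    induction n using Nat.strong_induction_on with
    | _ n IHn =>
    have core : ∀ (y : ℕ → V) (f : ℕ → E) (pr : ℕ → ℕ) (c : E → Option (Fin k)),
        TT G n y f pr c → (∀ i, p ≤ i → i < n → pr i = i) → ∀ i, i < n → ∀ a,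
        G.Miss c (y i) a → G.Miss c (y n) a → False := by
      intro y f pr c h hP i hin a hi ha
      rcases Nat.lt_or_ge n p with hnp | hnp
      · exact IHp n hnp n y f pr c h (by intro t h1 h2; omega) i n hin le_rfl a hi ha
      rcases Nat.lt_or_ge i p with hip | hip
      · match p, IHp, IHn, hP, hnp, hip with
        | 0, _, _, _, _, hip => omega
        | 1, IHp, _, hP, _, _ =>
          refine IHp 0 (by omega) n y f pr c h ?_ i n hin le_rfl a hi ha
          intro t h1 h2
          rcases Nat.eq_zero_or_pos t with h3 | h3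
          · rw [h3]
            have := h.le 0 (by omega)
            omega
          · exact hP t h3 h2
        | 2, IHp, _, hP, hnp, hip =>
          have hp0 : pr 0 = 0 := by
            have := h.le 0 (by omega)
            omega
          have hp1 := h.le 1 (by omega)
          by_cases h1 : pr 1 = 1
          · refine IHp 0 (by omega) n y f pr c h ?_ i n hin le_rfl a hi ha
            intro t _ h2
            rcases Nat.lt_or_ge t 2 with h3 | h3
            · interval_cases t
              · exact hp0
              · exact h1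
            · exact hP t h3 h2
          · have hp1' : pr 1 = 0 := by omega
            have hTT : TT G n (fun t => y (Equiv.swap 0 1 t)) f (fun t => t) c := by
              refine ⟨h.pp, ?_, ?_, ?_, h.none_iff, ?_⟩
              · intro s hs t ht hst
                have hb : ∀ s ≤ n, Equiv.swap 0 1 s ≤ n := by
                  intro s hs
                  rcases Nat.lt_or_ge s 2 with h3 | h3
                  · interval_cases s
                    · rw [Equiv.swap_apply_left]
                      omega
                    · rw [Equiv.swap_apply_right]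
                      omega
                  · rw [Equiv.swap_apply_of_ne_of_ne (by omega) (by omega)]
                    exact hs
                exact (Equiv.swap 0 1).injective (h.inj _ (hb s hs) _ (hb t ht) hst)
              · intro t _
                exact le_rfl
              · intro t ht
                rcases Nat.lt_or_ge t 2 with h3 | h3
                · interval_cases t
                  · have h4 := h.ed 0 (by omega)
                    rw [hp0] at h4
                    rw [h4]
                    simp [Sym2.eq_swap]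
                  · have h4 := h.ed 1 (by omega)
                    rw [hp1'] at h4
                    rw [h4]
                    have h5 : Equiv.swap 0 1 (1 + 1) = 2 := by
                      rw [Equiv.swap_apply_of_ne_of_ne (by omega) (by omega)]
                    simp [h5]
                · rw [Equiv.swap_apply_of_ne_of_ne (by omega) (by omega),
                    Equiv.swap_apply_of_ne_of_ne (by omega) (by omega), h.ed t ht, hP t h3 ht]
              · intro t ht ht1
                obtain ⟨x, hx, s, hs, hsx⟩ := h.col t ht ht1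
                refine ⟨x, hx, Equiv.swap 0 1 s, ?_, ?_⟩
                · rcases Nat.lt_or_ge s 2 with h3 | h3
                  · interval_cases s
                    · rw [Equiv.swap_apply_left]
                      omega
                    · rw [Equiv.swap_apply_right]
                      omega
                  · rw [Equiv.swap_apply_of_ne_of_ne (by omega) (by omega)]
                    exact hs
                · rw [Equiv.swap_apply_self]
                  exact hsx
            refine IHp 0 (by omega) n _ f _ c hTT (fun _ _ _ => rfl) (Equiv.swap 0 1 i) n ?_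
              le_rfl a ?_ ?_
            · interval_cases i
              · rw [Equiv.swap_apply_left]
                omega
              · rw [Equiv.swap_apply_right]
                omega
            · rw [Equiv.swap_apply_self]
              exact hi
            · rw [Equiv.swap_apply_of_ne_of_ne (by omega) (by omega)]
              exact ha
        | r + 3, IHp, IHn, hP, hnp, hip =>
          by_cases hpr : pr (r + 2) = r + 2
          · refine IHp (r + 2) (by omega) n y f pr c h ?_ i n hin le_rfl a hi ha
            intro t h1 h2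
            rcases Nat.lt_or_ge t (r + 3) with h3 | h3
            · have h4 : t = r + 2 := by omega
              rw [h4]
              exact hpr
            · exact hP t h3 h2
          · have hpr' : pr (r + 2) ≤ r + 1 := by
              have := h.le (r + 2) (by omega)
              omega
            rcases Nat.lt_or_ge i (r + 2) with h1 | h1
            · exact stc hG hdeg hk (IHp (r + 2) (by omega)) IHn h hP hnp hpr' (by omega) hi ha
            · have h2 : i = r + 2 := by omega
              rw [h2] at hi
              obtain ⟨i0, hi0, α, hα, hfree⟩ := free hdeg hk h (by omega : r + 1 < n)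
                (fun s t h1 h2 => out IHn h hP s t h1 (by omega))
              obtain ⟨c', hT', n1, n2, n3⟩ := case1b (q := r + 1) IHn h hP (by omega) hi ha hi0
                hα hfree
              exact stc hG hdeg hk (IHp (r + 2) (by omega)) IHn hT' hP hnp hpr' hi0 n1 n2
      · exact case1a hG hdeg hk IHn (n - i) (by omega) y f pr c h hP i (by omega) hip a hi ha
    intro y f pr c h hP i j hij hjn a hi hj
    rcases Nat.lt_or_ge j n with h1 | h1
    · exact out IHn h hP i j hij h1 a hi hj
    · have h2 : j = n := by omega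
      rw [h2] at hj
      exact core y f pr c h hP i (by omega) a hi hj
  intro n y f pr c h _ i j hij hjn a hi hj
  exact key n n y f pr c h (by intro t h1 h2; omega) i j hij hjn a hi hj

end Pool.Agent.W119.KG
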